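import Pool.Agent.H18.FixedCount

/-!
# Approximate counts of characters fixed by Navarro's group

For a class of finite groups closed under finite direct powers and under direct and semidirect
products with cyclic groups, approximate equality of the numbers of height zero characters fixed
by Navarro's group in stable blocks and in their Brauer correspondents implies exact equality of
the numbers of height zero characters fixed by inertia and by arbitrary composites of Galois
automorphisms and group automorphisms, for all blocks.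
-/

open Pool.Agent.H18

namespace Pool.Agent.H18.Old.ApproximateCounts

section Aux

variable {p : ℕ} [Fact p.Prime]

lemma fixed_pull {L N : Type} [Group L] [Group N] (e : L ≃* N) (T : Set Gal)
    (X : Set (N → Qb)) :
    {χ ∈ pull e '' X | ∀ τ ∈ T, gal τ χ = χ}.ncard = {χ ∈ X | ∀ τ ∈ T, gal τ χ = χ}.ncard := by
  have h1 : {χ ∈ pull e '' X | ∀ τ ∈ T, gal τ χ = χ} =
      pull e '' {χ ∈ X | ∀ τ ∈ T, gal τ χ = χ} := by
    ext χ
    constructor
    · rintro ⟨⟨ψ, hψ, rfl⟩, h2⟩
      exact ⟨ψ, ⟨hψ, fun τ hτ => pull_injective e (h2 τ hτ)⟩, rfl⟩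
    · rintro ⟨ψ, ⟨hψ, h2⟩, rfl⟩
      refine ⟨⟨ψ, hψ, rfl⟩, fun τ hτ => ?_⟩
      rw [← pull_gal, h2 τ hτ]
  rw [h1]
  exact Set.ncard_image_of_injective _ (pull_injective e)

/-- Being fixed by inertia and a Frobenius element is being fixed by Navarro's group. -/
lemma fixed_iff {n : ℕ} [NeZero n] {G : Type} {σ : Gal} (hσ : IsFrob p n σ) (X : Set (G → Qb)) :
    {χ ∈ X | (∀ κ : Gal, (∀ ξ : Qb, ξ ^ (ordCompl[p] n) = 1 → κ ξ = ξ) → gal κ χ = χ) ∧
      gal σ χ = χ} = {χ ∈ X | ∀ τ ∈ navH p n, gal τ χ = χ} := by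
  ext χ
  constructor
  · rintro ⟨hχ, h1, h2⟩
    refine ⟨hχ, ?_⟩
    rintro τ ⟨f, hf⟩
    have h3 : ∀ j : ℕ, gal (σ ^ j) χ = χ := by
      intro j
      induction j with
      | zero => rfl
      | succ j ih =>
        have : gal (σ ^ (j + 1)) χ = gal (σ ^ j) (gal σ χ) := by rw [pow_succ]; rfl
        rw [this, h2, ih]
    have h4 := h1 _ (inv_mul_mem_inertia hf (hσ.pow f))
    have h5 : gal τ χ = gal (σ ^ f) (gal ((σ ^ f)⁻¹ * τ) χ) := by
      have : gal (σ ^ f) (gal ((σ ^ f)⁻¹ * τ) χ) = gal (σ ^ f * ((σ ^ f)⁻¹ * τ)) χ := rfl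
      rw [this, mul_inv_cancel_left]
    rw [h5, h4, h3]
  · rintro ⟨hχ, h1⟩
    exact ⟨hχ, fun κ hκ => h1 κ (inertia_mem_navH hκ), h1 σ hσ.mem_navH⟩

end Aux

/-- For a class `𝒢` of groups closed under finite direct powers and direct and semidirect products
with cyclic groups, the following are equivalent: (i) the numbers of height zero characters fixed
by Navarro's group in a stable block and in its Brauer correspondent agree up to factors which
grow slower than every positive power of the group order; (ii) for every block `B` with defect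
group `D` and Brauer correspondent `b`, every automorphism `α` of `G` with `α(D) = D` and every
`τ` in Navarro's group such that the composite of `α` and `τ` stabilises `B`, the numbers of height
zero characters in `B` and in `b` fixed by all Galois automorphisms fixing the roots of unity of
order prime to `p` and by the composite of `α` and `τ` are equal. -/
theorem result (p : ℕ) (hp : p.Prime) (𝒪 : ValuationSubring (AlgebraicClosure ℚ))
    (h𝒪 : (p : AlgebraicClosure ℚ) ∈ 𝒪.nonunits)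
    (𝒢 : (G : Type) → [Group G] → Prop)
    (h𝒢₁ : ∀ (G I : Type) [Group G] [Finite G] [Finite I], 𝒢 G → 𝒢 (I → G))
    (h𝒢₂ : ∀ (G C : Type) [Group G] [Group C] [Finite G] [Finite C] [IsCyclic C],
      𝒢 G → 𝒢 (G × C))
    (h𝒢₃ : ∀ (G Q : Type) [Group G] [Group Q] [Finite G] [Finite Q] [IsCyclic Q]
      (φ : Q →* MulAut G), 𝒢 G → 𝒢 (G ⋊[φ] Q)) :
    (∀ ε : ℝ, 0 < ε → ∃ C : ℝ, ∀ (G : Type) [Group G] [Finite G], 𝒢 G →
      ∀ (B : Set (G → AlgebraicClosure ℚ)) (D : Subgroup G)
        (b : Set (Subgroup.normalizer (D : Set G) → AlgebraicClosure ℚ)),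
        IsBlock 𝒪 B → IsDefectGroup 𝒪 B D → IsBlock 𝒪 b → IsBrauerCorr 𝒪 B D b →
        (∀ τ ∈ navH p (Nat.card G), gal τ '' B = B) →
        ({χ ∈ Irr0 p B D | ∀ τ ∈ navH p (Nat.card G), gal τ χ = χ}.ncard : ℝ) ≤
          C * (Nat.card G : ℝ) ^ ε *
            {χ ∈ Irr0 p b (D.subgroupOf (Subgroup.normalizer (D : Set G))) |
              ∀ τ ∈ navH p (Nat.card G), gal τ χ = χ}.ncard ∧
        ({χ ∈ Irr0 p b (D.subgroupOf (Subgroup.normalizer (D : Set G))) |
          ∀ τ ∈ navH p (Nat.card G), gal τ χ = χ}.ncard : ℝ) ≤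
          C * (Nat.card G : ℝ) ^ ε *
            {χ ∈ Irr0 p B D | ∀ τ ∈ navH p (Nat.card G), gal τ χ = χ}.ncard) ↔
    (∀ (G : Type) [Group G] [Finite G], 𝒢 G →
      ∀ (B : Set (G → AlgebraicClosure ℚ)) (D : Subgroup G)
        (b : Set (Subgroup.normalizer (D : Set G) → AlgebraicClosure ℚ)),
        IsBlock 𝒪 B → IsDefectGroup 𝒪 B D → IsBlock 𝒪 b → IsBrauerCorr 𝒪 B D b →
        ∀ (α : G ≃* G) (β : Subgroup.normalizer (D : Set G) ≃* Subgroup.normalizer (D : Set G)),
        (∀ x, (β x : G) = α x) → D.map α.toMonoidHom = D →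
        ∀ τ ∈ navH p (Nat.card G), (fun (χ : G → AlgebraicClosure ℚ) g => gal τ χ (α g)) '' B = B →
        {χ ∈ Irr0 p B D |
          (∀ κ : AlgebraicClosure ℚ ≃ₐ[ℚ] AlgebraicClosure ℚ,
            (∀ ξ : AlgebraicClosure ℚ, ξ ^ (ordCompl[p] (Nat.card G)) = 1 → κ ξ = ξ) →
            gal κ χ = χ) ∧ (fun g => gal τ χ (α g)) = χ}.ncard =
        {χ ∈ Irr0 p b (D.subgroupOf (Subgroup.normalizer (D : Set G))) |
          (∀ κ : AlgebraicClosure ℚ ≃ₐ[ℚ] AlgebraicClosure ℚ,
            (∀ ξ : AlgebraicClosure ℚ, ξ ^ (ordCompl[p] (Nat.card G)) = 1 → κ ξ = ξ) →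
            gal κ χ = χ) ∧ (fun x => gal τ χ (β x)) = χ}.ncard) := by
  classical
  have : Fact p.Prime := ⟨hp⟩
  constructor
  · intro hyp G _ _ hG B D b hB hD hb hBb α β hαβ hαD τ hτ hst
    have h : LocalModel 𝒪 B D (Subgroup.normalizer (D : Set G)).subtype b :=
      LocalModel.of_official hB hD hb hBb
    have happ : Approx p 𝒪 𝒢 := by
      intro ε hε
      obtain ⟨C, hC⟩ := hyp ε hε
      refine ⟨C, fun G' _ _ hG' L' _ B' D' ι' b' h' hst' => ?_⟩
      have h1 := hC G' hG' B' D' h'.off h'.blockB h'.defect h'.isBlock_off h'.isBrauerCorr_off hst'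
      rw [h'.irr0_off, fixed_pull] at h1
      exact h1
    exact tfix_of_approx (α := α) (α' := β) h𝒪 happ h𝒢₁ h𝒢₂ h𝒢₃ hG h hαβ
      (fun d hd => by rw [← hαD]; exact ⟨d, hd, rfl⟩) hτ (by rw [Set.image_image]; exact hst)
  · intro hyp ε hε
    refine ⟨1, fun G _ _ hG B D b hB hD hb hBb hst => ?_⟩
    have hn : NeZero (Nat.card G) := ⟨Nat.card_pos.ne'⟩
    obtain ⟨σ, hσ⟩ := exists_frob p (n := Nat.card G) Nat.card_pos.ne'
    have h1 := hyp G hG B D b hB hD hb hBb (MulEquiv.refl G) (MulEquiv.refl _)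
      (fun _ => rfl) (by ext x; simp) σ hσ.mem_navH (by
        have : (fun (χ : G → AlgebraicClosure ℚ) g => gal σ χ (MulEquiv.refl G g)) =
          gal σ := rfl
        rw [this]; exact hst σ hσ.mem_navH)
    have h2 : {χ ∈ Irr0 p B D | ∀ τ ∈ navH p (Nat.card G), gal τ χ = χ}.ncard =
        {χ ∈ Irr0 p b (D.subgroupOf (Subgroup.normalizer (D : Set G))) |
          ∀ τ ∈ navH p (Nat.card G), gal τ χ = χ}.ncard := by
      rw [← fixed_iff hσ, ← fixed_iff hσ]
      exact h1
    have h3 : (1 : ℝ) ≤ (Nat.card G : ℝ) ^ ε :=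
      Real.one_le_rpow (by exact_mod_cast Nat.card_pos) hε.le
    rw [h2, one_mul]
    have h4 : ∀ k : ℕ, (k : ℝ) ≤ (Nat.card G : ℝ) ^ ε * k := fun k =>
      le_mul_of_one_le_left (Nat.cast_nonneg k) h3
    exact ⟨h4 _, h4 _⟩

end Pool.Agent.H18.Old.ApproximateCounts
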