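import Pool.Agent.H18.TwistMain

/-!
# The Alperin-McKay-Navarro conjecture and group automorphisms

For a class of finite groups closed under forming `(G × C) ⋊ Q` with cyclic groups `C`, `Q`, the
Alperin-McKay-Navarro conjecture for all blocks implies, and hence is equivalent to, its stronger
form where combinations of Galois automorphisms and of group automorphisms are allowed.
-/

open Pool.Agent.H18

namespace Pool.Agent.Results.MP_7f1e7e_al.AutomorphismTwist

/-- The Alperin-McKay-Navarro conjecture for all blocks of the groups in the class `𝒢` is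
equivalent to the following: for every block `B` of a group `G` in `𝒢` with defect group `D` and
Brauer correspondent `b`, every automorphism `α` of `G` with `α(D) = D` and every `τ` in Navarro's
group such that the composite of `α` and `τ` stabilises `B`, there is a bijection between the
characters of height zero in `B` and in `b` which commutes with all Galois automorphisms fixing
the roots of unity of order prime to `p`, and with the composite of `α` and `τ`. -/
theorem result (p : ℕ) (hp : p.Prime) (𝒪 : ValuationSubring (AlgebraicClosure ℚ))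
    (h𝒪 : (p : AlgebraicClosure ℚ) ∈ 𝒪.nonunits)
    (𝒢 : (G : Type) → [Group G] → Prop)
    (h𝒢 : ∀ (G C Q : Type) [Group G] [Group C] [Group Q] [Finite G] [Finite C] [Finite Q]
      [IsCyclic C] [IsCyclic Q] (φ : Q →* MulAut (G × C)), 𝒢 G → 𝒢 ((G × C) ⋊[φ] Q)) :
    (∀ (G : Type) [Group G] [Finite G], 𝒢 G →
      ∀ (B : Set (G → AlgebraicClosure ℚ)) (D : Subgroup G)
        (b : Set (Subgroup.normalizer (D : Set G) → AlgebraicClosure ℚ)),
        IsBlock 𝒪 B → IsDefectGroup 𝒪 B D → IsBlock 𝒪 b → IsBrauerCorr 𝒪 B D b →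
        ∃ f : (G → AlgebraicClosure ℚ) →
            (Subgroup.normalizer (D : Set G) → AlgebraicClosure ℚ),
          Set.BijOn f (Irr0 p B D)
            (Irr0 p b (D.subgroupOf (Subgroup.normalizer (D : Set G)))) ∧
          ∀ τ ∈ navHB p B, ∀ χ ∈ Irr0 p B D, f (gal τ χ) = gal τ (f χ)) ↔
    (∀ (G : Type) [Group G] [Finite G], 𝒢 G →
      ∀ (B : Set (G → AlgebraicClosure ℚ)) (D : Subgroup G)
        (b : Set (Subgroup.normalizer (D : Set G) → AlgebraicClosure ℚ)),
        IsBlock 𝒪 B → IsDefectGroup 𝒪 B D → IsBlock 𝒪 b → IsBrauerCorr 𝒪 B D b →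
        ∀ (α : G ≃* G) (β : Subgroup.normalizer (D : Set G) ≃* Subgroup.normalizer (D : Set G)),
        (∀ x, (β x : G) = α x) → D.map α.toMonoidHom = D →
        ∀ τ ∈ navH p (Nat.card G), (fun (χ : G → AlgebraicClosure ℚ) g => gal τ χ (α g)) '' B = B →
        ∃ f : (G → AlgebraicClosure ℚ) →
            (Subgroup.normalizer (D : Set G) → AlgebraicClosure ℚ),
          Set.BijOn f (Irr0 p B D)
            (Irr0 p b (D.subgroupOf (Subgroup.normalizer (D : Set G)))) ∧
          (∀ κ : AlgebraicClosure ℚ ≃ₐ[ℚ] AlgebraicClosure ℚ,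
            (∀ ξ : AlgebraicClosure ℚ, ξ ^ (ordCompl[p] (Nat.card G)) = 1 → κ ξ = ξ) →
            ∀ χ ∈ Irr0 p B D, f (gal κ χ) = gal κ (f χ)) ∧
          ∀ χ ∈ Irr0 p B D,
            f (fun g => gal τ χ (α g)) = fun x => gal τ (f χ) (β x)) := by
  classical
  have : Fact p.Prime := ⟨hp⟩
  constructor
  · intro hyp G _ _ hG B D b hB hD hb hBb α β hαβ hαD τ hτ hst
    have h : LocalModel 𝒪 B D (Subgroup.normalizer (D : Set G)).subtype b :=
      LocalModel.of_official hB hD hb hBb
    refine twisted_amn (α := α) (α' := β) h𝒪 h hαβ ?_ hτ ?_ ?_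
    · intro d hd
      rw [← hαD]
      exact ⟨d, hd, rfl⟩
    · rw [Set.image_image]; exact hst
    · intro C Q _ _ _ _ _ _ φ L' _ B' D' ι' b' h'
      exact h'.amn_of_off (hyp _ (h𝒢 G C Q φ hG) B' D' h'.off h'.blockB h'.defect h'.isBlock_off
        h'.isBrauerCorr_off)
  · intro hyp G _ _ hG B D b hB hD hb hBb
    obtain ⟨τ₀, hτ₀, hgen⟩ := exists_generator (p := p) B
    obtain ⟨f, hf, hf1, hf2⟩ := hyp G hG B D b hB hD hb hBb (MulEquiv.refl G) (MulEquiv.refl _)
      (fun _ => rfl) (by ext x; simp) τ₀ hτ₀.1 (by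
        have : (fun (χ : G → AlgebraicClosure ℚ) g => gal τ₀ χ (MulEquiv.refl G g)) =
          gal τ₀ := rfl
        rw [this]; exact hτ₀.2)
    refine ⟨f, hf, fun τ hτ χ hχ => ?_⟩
    obtain ⟨i, κ, hκ, rfl⟩ := hgen τ hτ
    have hpow : ∀ j : ℕ, gal (τ₀ ^ j) χ ∈ Irr0 p B D ∧
        f (gal (τ₀ ^ j) χ) = gal (τ₀ ^ j) (f χ) := by
      intro j
      induction j with
      | zero => exact ⟨hχ, rfl⟩
      | succ j ih =>
        rw [pow_succ', gal_mul, gal_mul]
        refine ⟨gal_mem_irr0 hτ₀.2 ih.1, ?_⟩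
        rw [← ih.2]
        exact hf2 _ ih.1
    rw [gal_mul, gal_mul, hf1 κ hκ _ (hpow i).1, (hpow i).2]

end Pool.Agent.Results.MP_7f1e7e_al.AutomorphismTwist
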