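import Pool.Agent.H18.RS.Main

/-!
# The pole of `L₂` at `s = 2` for the products of a fixed curve with the modular elliptic curves

`k` is a number field, `F` a polynomial of degree `2 g + 1` over its integers, separable over `k`, and
`C` the curve `y ^ 2 = F(x)`, of genus `g`. `S` is a finite set of cubic polynomials `h` over `ℤ`,
separable over `ℚ`, such that the elliptic curves `E_h : y ^ 2 = h(x)` over `ℚ` are modular and any two of
them have different traces `a_p` at infinitely many primes `p` (that is, they are not isogenous over `ℚ`).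
The surfaces are `C × E_h` and `C × C` over `k`.
No case of the Weil conjectures and no property of Rankin-Selberg L-functions is assumed: the bound for
the Frobenius traces is proved in `Pool.Agent.H1.Weil`, the Rankin-Selberg bounds in `Pool.Agent.H18.RS`.
-/

open NumberField IsDedekindDomain Filter Topology Polynomial

namespace Pool.Agent.Results.MP_1f4fc7_nt.ModularFamily

open Pool.Agent.H1.Tate Pool.Agent.H18.RS

/-- With `γ(X) = log |L₂(s, X)| / log (1 / (s - 2))`, `s → 2+`: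
(1) `limsup (∑_{h ∈ S} (γ(C × E_h) - 2)² - 2 [k : ℚ] (γ(C × C) - 2)) ≤ 0`;
(2) `limsup ∑_{h ∈ S} (γ(C × E_h) - 2)² ≤ 8 g² [k : ℚ]`;
(3) if `L₂(s, C × E_h)` has a pole of order `r_h` at `s = 2` for every `h ∈ S`, then
`∑_{h ∈ S} (r_h - 2)² ≤ 8 g² [k : ℚ]`, and `≤ 2 [k : ℚ] (r - 2)` if `L₂(s, C × C)` has a pole of order `r`. -/
theorem result {k : Type*} [Field k] [NumberField k] (F : (𝓞 k)[X]) (g : ℕ)
    (hF : F.natDegree = 2 * g + 1) (hsF : (F.map (algebraMap (𝓞 k) k)).Separable)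
    (S : Finset ℤ[X]) (hdeg : ∀ h ∈ S, h.natDegree = 3)
    (hsep : ∀ h ∈ S, (h.map (Int.castRingHom ℚ)).Separable) (hmod : ∀ h ∈ S, IsModular h)
    (hne : ∀ h ∈ S, ∀ h' ∈ S, h ≠ h' → {p : ℕ | p.Prime ∧ ap h p ≠ ap h' p}.Infinite)
    (bad : ℤ[X] → HeightOneSpectrum (𝓞 k) → Multiset ℂ)
    (hbad : ∀ h ∈ S, ∀ v, ∀ α ∈ bad h v, ‖α‖ ≤ Ideal.absNorm v.asIdeal)
    (badF : HeightOneSpectrum (𝓞 k) → Multiset ℂ)
    (hbadF : ∀ v, ∀ α ∈ badF v, ‖α‖ ≤ Ideal.absNorm v.asIdeal) :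
    (∀ ε : ℝ, 0 < ε → ∀ᶠ s : ℝ in 𝓝[>] 2,
      ∑ h ∈ S, (Real.log ‖L2 F (h.map (Int.castRingHom (𝓞 k))) (bad h) (s : ℂ)‖ /
        Real.log (1 / (s - 2)) - 2) ^ 2 ≤ 2 * Module.finrank ℚ k *
          (Real.log ‖L2 F F badF (s : ℂ)‖ / Real.log (1 / (s - 2)) - 2) + ε) ∧
    (∀ ε : ℝ, 0 < ε → ∀ᶠ s : ℝ in 𝓝[>] 2,
      ∑ h ∈ S, (Real.log ‖L2 F (h.map (Int.castRingHom (𝓞 k))) (bad h) (s : ℂ)‖ /
        Real.log (1 / (s - 2)) - 2) ^ 2 ≤ 8 * (g : ℝ) ^ 2 * Module.finrank ℚ k + ε) ∧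
    ∀ r : ℤ[X] → ℤ,
      (∀ h ∈ S, HasPole (L2 F (h.map (Int.castRingHom (𝓞 k))) (bad h)) 2 (r h)) →
      ∑ h ∈ S, (r h - 2) ^ 2 ≤ 8 * (g : ℤ) ^ 2 * Module.finrank ℚ k ∧
      ∀ rF : ℤ, HasPole (L2 F F badF) 2 rF →
        ∑ h ∈ S, (r h - 2) ^ 2 ≤ 2 * Module.finrank ℚ k * (rF - 2) :=
  ⟨fun _ hε => family_growth hF hsF hdeg hsep hmod hne hbad hbadF hε,
   fun _ hε => family_growth_abs hF hsF hdeg hsep hmod hne hbad hε,
   fun _ hr => ⟨(family_pole hF hsF hdeg hsep hmod hne hbad hr).1, fun rF hrF =>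
     (family_pole hF hsF hdeg hsep hmod hne hbad hr).2 badF hbadF rF hrF⟩⟩

end Pool.Agent.Results.MP_1f4fc7_nt.ModularFamily
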