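import Pool.Agent.H18.StarMain

/-!
# The Alperin-McKay-Navarro conjecture and sums of orbit lengths

For a class of finite groups closed under direct products with solvable groups of derived length
three, finite direct powers and semidirect products with cyclic groups, the
Alperin-McKay-Navarro conjecture for all blocks is equivalent to the equality of a single pair of
integers for every block stable under Navarro's group: the sums of the lengths of the orbits of
Navarro's group through the height zero characters.
-/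

open Pool.Agent.H18

namespace Pool.Agent.H18.Old.OrbitLengthSum

section Aux

variable {p : ℕ} [Fact p.Prime]

/-- The sum of the orbit lengths as a finite sum. -/
lemma sum_eq_W {G : Type} [Group G] [Finite G] (H : Subgroup Gal) {X : Set (G → Qb)}
    (hX : X.Finite) :
    ((∑ᶠ χ ∈ X, ((fun τ => gal τ χ) '' (H : Set Gal)).ncard : ℕ) : ℚ) =
      W (fun k => (k : ℚ)) H hX.toFinset := by
  rw [finsum_mem_eq_finite_toFinset_sum _ hX, W]
  push_cast
  refine Finset.sum_congr rfl fun χ _ => ?_
  rw [image_gal_eq_orbit]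
  rfl

lemma sum_pull {L N : Type} [Group L] [Group N] (e : L ≃* N) (H : Set Gal)
    (X : Set (N → Qb)) :
    ∑ᶠ χ ∈ pull e '' X, ((fun τ => gal τ χ) '' H).ncard =
      ∑ᶠ χ ∈ X, ((fun τ => gal τ χ) '' H).ncard := by
  rw [finsum_mem_image (pull_injective e).injOn]
  refine finsum_mem_congr rfl fun χ _ => ?_
  have h1 : (fun τ => gal τ (pull e χ)) '' H = pull e '' ((fun τ => gal τ χ) '' H) := by
    rw [Set.image_image]
    rfl
  rw [h1]
  exact Set.ncard_image_of_injective _ (pull_injective e)

end Aux

/-- For a class `𝒢` of finite groups closed under direct products with solvable groups of derived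
length three, finite direct powers and semidirect products with cyclic groups, the following are
equivalent: (i) for every block `B` stable under Navarro's group with Brauer correspondent `b`, the
sum of the lengths of the orbits of Navarro's group through the height zero characters of `B` is
equal to the same sum for `b`; (ii) for every block `B` with Brauer correspondent `b` there is a
bijection between the height zero characters of `B` and of `b` which commutes with the action of
the stabiliser of `B` in Navarro's group. -/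
theorem result (p : ℕ) (hp : p.Prime) (𝒪 : ValuationSubring (AlgebraicClosure ℚ))
    (h𝒪 : (p : AlgebraicClosure ℚ) ∈ 𝒪.nonunits)
    (𝒢 : (G : Type) → [Group G] → Prop)
    (h𝒢₁ : ∀ (G H : Type) [Group G] [Group H] [Finite G] [Finite H],
      𝒢 G → derivedSeries H 3 = ⊥ → 𝒢 (G × H))
    (h𝒢₂ : ∀ (G I : Type) [Group G] [Finite G] [Finite I], 𝒢 G → 𝒢 (I → G))
    (h𝒢₃ : ∀ (G Q : Type) [Group G] [Group Q] [Finite G] [Finite Q] [IsCyclic Q]
      (φ : Q →* MulAut G), 𝒢 G → 𝒢 (G ⋊[φ] Q)) :
    (∀ (G : Type) [Group G] [Finite G], 𝒢 G →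
      ∀ (B : Set (G → AlgebraicClosure ℚ)) (D : Subgroup G)
        (b : Set (Subgroup.normalizer (D : Set G) → AlgebraicClosure ℚ)),
        IsBlock 𝒪 B → IsDefectGroup 𝒪 B D → IsBlock 𝒪 b → IsBrauerCorr 𝒪 B D b →
        (∀ τ ∈ navH p (Nat.card G), gal τ '' B = B) →
        ∑ᶠ χ ∈ Irr0 p B D, ((fun τ => gal τ χ) '' navH p (Nat.card G)).ncard =
          ∑ᶠ χ ∈ Irr0 p b (D.subgroupOf (Subgroup.normalizer (D : Set G))),
            ((fun τ => gal τ χ) '' navH p (Nat.card G)).ncard) ↔
    (∀ (G : Type) [Group G] [Finite G], 𝒢 G →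
      ∀ (B : Set (G → AlgebraicClosure ℚ)) (D : Subgroup G)
        (b : Set (Subgroup.normalizer (D : Set G) → AlgebraicClosure ℚ)),
        IsBlock 𝒪 B → IsDefectGroup 𝒪 B D → IsBlock 𝒪 b → IsBrauerCorr 𝒪 B D b →
        ∃ f : (G → AlgebraicClosure ℚ) → (Subgroup.normalizer (D : Set G) → AlgebraicClosure ℚ),
          Set.BijOn f (Irr0 p B D)
            (Irr0 p b (D.subgroupOf (Subgroup.normalizer (D : Set G)))) ∧
          ∀ τ ∈ navHB p B, ∀ χ ∈ Irr0 p B D, f (gal τ χ) = gal τ (f χ)) := by
  classical
  have : Fact p.Prime := ⟨hp⟩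
  constructor
  · intro hyp
    have hsum : ∀ (G : Type) [Group G] [Finite G], 𝒢 G →
        StableSum p 𝒪 (fun k => (k : ℚ)) G := by
      intro G _ _ hG H _ _ hH L _ B D ι b h hst hn hX hY
      have hfL : Finite L := h.finite
      have h1 := hyp (G × H) (h𝒢₁ G H hG hH) B D h.off h.blockB h.defect h.isBlock_off
        h.isBrauerCorr_off hst
      rw [h.irr0_off, sum_pull] at h1
      rw [← sum_eq_W (navHsub p (Nat.card (G × H))) hX,
        ← sum_eq_W (navHsub p (Nat.card (G × H))) hY]
      exact_mod_cast h1
    intro G _ _ hG B D b hB hD hb hBb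
    have h : LocalModel 𝒪 B D (Subgroup.normalizer (D : Set G)).subtype b :=
      LocalModel.of_official hB hD hb hBb
    exact amn_of_stableSums h𝒪 hsum h𝒢₂ h𝒢₃ hG h
  · intro hyp G _ _ hG B D b hB hD hb hBb hst
    obtain ⟨f, hf, hfe⟩ := hyp G hG B D b hB hD hb hBb
    have himg : Irr0 p b (D.subgroupOf (Subgroup.normalizer (D : Set G))) =
        f '' Irr0 p B D := hf.image_eq.symm
    rw [himg, finsum_mem_image hf.injOn]
    refine finsum_mem_congr rfl fun χ hχ => ?_
    have h1 : (fun τ => gal τ (f χ)) '' navH p (Nat.card G) =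
        f '' ((fun τ => gal τ χ) '' navH p (Nat.card G)) := by
      rw [Set.image_image]
      refine Set.image_congr fun τ hτ => ?_
      exact (hfe τ ⟨hτ, hst τ hτ⟩ χ hχ).symm
    rw [h1]
    refine (Set.InjOn.ncard_image ?_).symm
    rintro _ ⟨τ, hτ, rfl⟩ _ ⟨τ', hτ', rfl⟩ heq
    exact hf.injOn (gal_mem_irr0 (hst τ hτ) hχ) (gal_mem_irr0 (hst τ' hτ') hχ) heq

end Pool.Agent.H18.Old.OrbitLengthSum
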